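import Mathlib

/-!
# Relative cohomology of a classical Lie superalgebra: Cohen-Macaulay without collapse at `E_2`

Let `g` be the Lie superalgebra with even part `ℂ z` and odd part `ℂ q`, `z` central and
`[q, q] = z` (up to scaling this is `q(1)`); it is classical, with `G_0 = ℂˣ` acting trivially on
the odd part. For `a = 0` the cohomology `H(g, a; ℂ)` is spanned by a class in degree `0` and a
class in degree `1`, so it is finite-dimensional and hence Cohen-Macaulay (free of rank `2` over the
polynomial ring in no variables), but the differential `d_2` of the spectral sequence of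
`a ≤ g_0 ≤ g` is not zero.
-/

set_option autoImplicit false

open Finset

namespace Pool.Agent.Results.MP_41152b_al.QueerOne

/-- A Lie superalgebra over `ℂ` with even part `V₀` and odd part `V₁`: the three brackets and the
super Jacobi identities. -/
structure LieSuper (V₀ V₁ : Type) [AddCommGroup V₀] [Module ℂ V₀] [AddCommGroup V₁]
    [Module ℂ V₁] where
  /-- the bracket of two even elements -/
  b00 : V₀ →ₗ[ℂ] V₀ →ₗ[ℂ] V₀
  /-- the bracket of an even and an odd element -/
  b01 : V₀ →ₗ[ℂ] V₁ →ₗ[ℂ] V₁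
  /-- the bracket of two odd elements -/
  b11 : V₁ →ₗ[ℂ] V₁ →ₗ[ℂ] V₀
  alt : ∀ x, b00 x x = 0
  symm : ∀ y y', b11 y y' = b11 y' y
  jac000 : ∀ x y z, b00 x (b00 y z) = b00 (b00 x y) z + b00 y (b00 x z)
  jac001 : ∀ x x' y, b01 (b00 x x') y = b01 x (b01 x' y) - b01 x' (b01 x y)
  jac011 : ∀ x y y', b00 x (b11 y y') = b11 (b01 x y) y' + b11 y (b01 x y')
  jac111 : ∀ y₁ y₂ y₃, b01 (b11 y₁ y₂) y₃ + b01 (b11 y₂ y₃) y₁ + b01 (b11 y₃ y₁) y₂ = 0

/-- Functions of a list of even and a list of odd arguments. -/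
abbrev Fun (V₀ V₁ : Type) : Type := List V₀ → List V₁ → ℂ

section

variable {V₀ V₁ : Type} [AddCommGroup V₀] [Module ℂ V₀] [AddCommGroup V₁] [Module ℂ V₁]

/-- The function `f` is an element of the dual of the `n`-th super exterior power of `V₀ ⊕ V₁`:
multilinear, of total degree `n`, alternating in the even arguments, symmetric in the odd
arguments. -/
structure IsCochain (n : ℕ) (f : Fun V₀ V₁) : Prop where
  degree : ∀ X Y, X.length + Y.length ≠ n → f X Y = 0
  even_linear : ∀ X X' Y (a b : V₀) (c : ℂ),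
    f (X ++ (c • a + b) :: X') Y = c * f (X ++ a :: X') Y + f (X ++ b :: X') Y
  odd_linear : ∀ X Y Y' (a b : V₁) (c : ℂ),
    f X (Y ++ (c • a + b) :: Y') = c * f X (Y ++ a :: Y') + f X (Y ++ b :: Y')
  alternating : ∀ X X' X'' Y (a : V₀), f (X ++ a :: X' ++ a :: X'') Y = 0
  symmetric : ∀ X Y Y', Y.Perm Y' → f X Y = f X Y'

/-- The differential of the complex of cochains with values in `ℂ`. -/
noncomputable def diff (g : LieSuper V₀ V₁) (f : Fun V₀ V₁) : Fun V₀ V₁ := fun X Y =>
  (∑ b ∈ range X.length, ∑ a ∈ range b,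
    (-1 : ℂ) ^ (a + b) * f (g.b00 (X.getD a 0) (X.getD b 0) :: (X.eraseIdx b).eraseIdx a) Y) +
  (∑ a ∈ range X.length, ∑ b ∈ range Y.length,
    (-1 : ℂ) ^ (a + 1) * f (X.eraseIdx a) (Y.set b (g.b01 (X.getD a 0) (Y.getD b 0)))) -
  ∑ b ∈ range Y.length, ∑ a ∈ range b,
    f (g.b11 (Y.getD a 0) (Y.getD b 0) :: X) ((Y.eraseIdx b).eraseIdx a)

/-- The cochain `f` is relative to the subspace `A` of `V₀`: it vanishes if an even argument is in
`A`, and it is invariant under `A`. -/
structure IsRelative (g : LieSuper V₀ V₁) (A : Submodule ℂ V₀) (n : ℕ) (f : Fun V₀ V₁) : Prop where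
  cochain : IsCochain n f
  vanish : ∀ u ∈ A, ∀ X Y, f (u :: X) Y = 0
  invariant : ∀ u ∈ A, ∀ X Y,
    (∑ k ∈ range X.length, f (X.set k (g.b00 u (X.getD k 0))) Y) +
      ∑ k ∈ range Y.length, f X (Y.set k (g.b01 u (Y.getD k 0))) = 0

/-- Relative cocycles of degree `n`. -/
def IsCocycle (g : LieSuper V₀ V₁) (A : Submodule ℂ V₀) (n : ℕ) (f : Fun V₀ V₁) : Prop :=
  IsRelative g A n f ∧ diff g f = 0

/-- Relative coboundaries of degree `n`. -/
def IsCoboundary (g : LieSuper V₀ V₁) (A : Submodule ℂ V₀) (n : ℕ) (f : Fun V₀ V₁) : Prop :=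
  f = 0 ∨ ∃ (m : ℕ) (h : Fun V₀ V₁), m + 1 = n ∧ IsRelative g A m h ∧ diff g h = f

/-- All ways to split a list into two complementary sublists, with the sign of the shuffle. -/
noncomputable def splits {V : Type} : List V → List (ℂ × List V × List V)
  | [] => [(1, [], [])]
  | x :: X => (splits X).map (fun p => (p.1, x :: p.2.1, p.2.2)) ++
      (splits X).map (fun p => ((-1) ^ p.2.1.length * p.1, p.2.1, x :: p.2.2))

/-- The cup product of cochains (the product of the super exterior algebra of the dual). -/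
noncomputable def cup (f h : Fun V₀ V₁) : Fun V₀ V₁ := fun X Y =>
  ((splits X).map fun p => ((splits Y).map fun q =>
    p.1 * (-1) ^ (p.2.2.length * q.2.1.length) * (f p.2.1 q.2.1 * h p.2.2 q.2.2)).sum).sum

/-- The unit cochain. -/
noncomputable def one : Fun V₀ V₁ := fun X Y => if X = [] ∧ Y = [] then 1 else 0

/-- The monomial `t_1 ^ α_1 ⋯ t_k ^ α_k` (cup products). -/
noncomputable def mono {k : ℕ} (t : Fin k → Fun V₀ V₁) (α : Fin k → ℕ) : Fun V₀ V₁ :=
  (List.finRange k).foldr (fun i f => (cup (t i))^[α i] f) one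

/-- The graded algebra `H(g, A; ℂ)` is Cohen-Macaulay: there are commuting homogeneous classes
`t_1, …, t_k` of positive degrees and homogeneous classes `e_1, …, e_l` such that the products
`t ^ α e_j` are a basis of `H(g, A; ℂ)` over `ℂ`; so `t_1, …, t_k` generate a polynomial subalgebra
and `e_1, …, e_l` are a basis of the module `H(g, A; ℂ)` over it. -/
def CohenMacaulay (g : LieSuper V₀ V₁) (A : Submodule ℂ V₀) : Prop :=
  ∃ (k l : ℕ) (t : Fin k → Fun V₀ V₁) (dt : Fin k → ℕ) (e : Fin l → Fun V₀ V₁) (de : Fin l → ℕ),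
    (∀ i, 0 < dt i ∧ IsCocycle g A (dt i) (t i)) ∧
    (∀ i j, IsCoboundary g A (dt i + dt j) (cup (t i) (t j) - cup (t j) (t i))) ∧
    (∀ j, IsCocycle g A (de j) (e j)) ∧
    ∀ n f, IsCocycle g A n f → ∃! c : ((Fin k → ℕ) × Fin l) →₀ ℂ,
      (∀ p, c p ≠ 0 → ∑ i, p.1 i * dt i + de p.2 = n) ∧
      IsCoboundary g A n (f - c.sum fun p z => z • cup (mono t p.1) (e p.2))

/-- The filtration: `f` vanishes whenever fewer than `p` of the arguments are odd (for cochains of
degree `n` this says: whenever `n - p + 1` of the arguments are even). -/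
def Filt (p : ℕ) (f : Fun V₀ V₁) : Prop := ∀ X Y, Y.length < p → f X Y = 0

/-- The spectral sequence of the filtered complex of relative cochains with values in `ℂ` collapses
at `E_2`: all differentials `d_r`, `r ≥ 2`, vanish. -/
def Collapses (g : LieSuper V₀ V₁) (A : Submodule ℂ V₀) : Prop :=
  ∀ r, 2 ≤ r → ∀ (p n : ℕ) (f : Fun V₀ V₁), IsRelative g A n f → Filt p f →
    Filt (p + r) (diff g f) → ∃ h : Fun V₀ V₁, IsRelative g A n h ∧ Filt (p + 1) h ∧
      Filt (p + r) (diff g h) ∧ Filt (p + r + 1) (diff g f - diff g h)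

/-- The Lie superalgebra is classical with a torus as even group: the even part is abelian with a
basis `z_i` and the odd part has a basis `e_j` with `[z_i, e_j] = w_ij e_j` for integers `w_ij`. So
`V₀` is the Lie algebra of the torus `(ℂˣ) ^ r`, which acts on the odd part by
`t · e_j = (∏ t_i ^ w_ij) e_j`, and this action differentiates to the adjoint action. -/
def ToralClassical (g : LieSuper V₀ V₁) : Prop :=
  (∀ x x', g.b00 x x' = 0) ∧ ∃ (r s : ℕ) (z : Module.Basis (Fin r) ℂ V₀)
    (e : Module.Basis (Fin s) ℂ V₁) (w : Fin r → Fin s → ℤ),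
    ∀ i j, g.b01 (z i) (e j) = (w i j : ℂ) • e j

end

/-- The Lie superalgebra with even part `ℂ z` and odd part `ℂ q`, where `z` is central and
`[q, q] = z`. -/
noncomputable def queerOne : LieSuper ℂ ℂ where
  b00 := 0
  b01 := 0
  b11 := LinearMap.mul ℂ ℂ
  alt := fun _ => rfl
  symm := fun y y' => by simp [mul_comm]
  jac000 := by simp
  jac001 := by simp
  jac011 := by simp
  jac111 := by simp

/-! ### Computation -/

variable {n : ℕ} {f : Fun ℂ ℂ}

theorem even_zero (hf : IsCochain n f) {X : List ℂ} (Y : List ℂ) (h : (0 : ℂ) ∈ X) :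
    f X Y = 0 := by
  obtain ⟨X1, X2, rfl⟩ := List.append_of_mem h
  have h1 := hf.even_linear X1 X2 Y 0 0 1
  rw [smul_zero, add_zero, one_mul] at h1
  linear_combination h1 - h1 - h1

theorem odd_zero (hf : IsCochain n f) (X : List ℂ) {Y : List ℂ} (h : (0 : ℂ) ∈ Y) :
    f X Y = 0 := by
  obtain ⟨Y1, Y2, rfl⟩ := List.append_of_mem h
  have h1 := hf.odd_linear X Y1 Y2 0 0 1
  rw [smul_zero, add_zero, one_mul] at h1
  linear_combination h1 - h1 - h1

theorem even_smul (hf : IsCochain n f) (X X' Y : List ℂ) (c : ℂ) :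
    f (X ++ c :: X') Y = c * f (X ++ 1 :: X') Y := by
  have h1 := hf.even_linear X X' Y 1 0 c
  rw [smul_eq_mul, mul_one, add_zero] at h1
  rw [h1, even_zero hf (X := X ++ 0 :: X') Y (by simp), add_zero]

theorem odd_smul (hf : IsCochain n f) (X Y Y' : List ℂ) (c : ℂ) :
    f X (Y ++ c :: Y') = c * f X (Y ++ 1 :: Y') := by
  have h1 := hf.odd_linear X Y Y' 1 0 c
  rw [smul_eq_mul, mul_one, add_zero] at h1
  rw [h1, odd_zero hf X (Y := Y ++ 0 :: Y') (by simp), add_zero]

theorem odd_prod (hf : IsCochain n f) (X : List ℂ) : ∀ (Y Z : List ℂ),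
    f X (Z ++ Y) = Y.prod * f X (Z ++ List.replicate Y.length 1) := by
  intro Y
  induction Y with
  | nil => intro Z; simp
  | cons y Y ih =>
    intro Z
    rw [odd_smul hf X Z Y y]
    have h1 := ih (Z ++ [1])
    rw [List.append_assoc, List.append_assoc, List.singleton_append, List.singleton_append] at h1
    rw [h1, List.prod_cons, List.length_cons, List.replicate_succ]
    ring

/-- a cochain is determined by its values at lists of ones -/
theorem eval_nil (hf : IsCochain n f) (Y : List ℂ) :
    f [] Y = Y.prod * f [] (List.replicate Y.length 1) := odd_prod hf [] Y []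

theorem eval_one (hf : IsCochain n f) (x : ℂ) (Y : List ℂ) :
    f [x] Y = x * Y.prod * f [1] (List.replicate Y.length 1) := by
  have h1 := even_smul hf [] [] Y x
  rw [List.nil_append, List.nil_append] at h1
  rw [h1]
  have h2 := odd_prod hf [1] Y []
  rw [List.nil_append, List.nil_append] at h2
  rw [h2]
  ring

theorem eval_two (hf : IsCochain n f) (x x' : ℂ) (X Y : List ℂ) : f (x :: x' :: X) Y = 0 := by
  have h1 := even_smul hf [] (x' :: X) Y x
  have h2 := even_smul hf [1] X Y x'
  have h3 := hf.alternating [] [] X Y 1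
  simp only [List.nil_append, List.cons_append] at h1 h2 h3
  rw [h1, h2, h3, mul_zero, mul_zero]

theorem diff_eq (hf : IsCochain n f) (X Y : List ℂ) : diff queerOne f X Y =
    -∑ b ∈ range Y.length, ∑ a ∈ range b,
      f ((Y.getD a 0 * Y.getD b 0) :: X) ((Y.eraseIdx b).eraseIdx a) := by
  unfold diff
  have h1 : (∑ b ∈ range X.length, ∑ a ∈ range b,
      (-1 : ℂ) ^ (a + b) * f (queerOne.b00 (X.getD a 0) (X.getD b 0) ::
        (X.eraseIdx b).eraseIdx a) Y) = 0 := by
    refine Finset.sum_eq_zero fun b _ => Finset.sum_eq_zero fun a _ => ?_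
    rw [even_zero hf Y, mul_zero]
    exact List.mem_cons_self
  have h2 : (∑ a ∈ range X.length, ∑ b ∈ range Y.length,
      (-1 : ℂ) ^ (a + 1) * f (X.eraseIdx a)
        (Y.set b (queerOne.b01 (X.getD a 0) (Y.getD b 0)))) = 0 := by
    refine Finset.sum_eq_zero fun a _ => Finset.sum_eq_zero fun b hb => ?_
    rw [odd_zero hf, mul_zero]
    exact List.mem_set (Finset.mem_range.1 hb) _
  rw [h1, h2, add_zero, zero_sub]
  rfl

theorem diff_cons (hf : IsCochain n f) (x : ℂ) (X Y : List ℂ) :
    diff queerOne f (x :: X) Y = 0 := by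
  rw [diff_eq hf, neg_eq_zero]
  exact Finset.sum_eq_zero fun b _ => Finset.sum_eq_zero fun a _ => eval_two hf _ _ _ _

theorem prod_pair {Y : List ℂ} {a b : ℕ} (hab : a < b) (hb : b < Y.length) :
    Y.getD a 0 * Y.getD b 0 * ((Y.eraseIdx b).eraseIdx a).prod = Y.prod := by
  have h1 := List.CommMonoid.mul_prod_eraseIdx hb
  have hlen : a < (Y.eraseIdx b).length := by
    rw [List.length_eraseIdx_of_lt hb]
    omega
  have h2 := List.CommMonoid.mul_prod_eraseIdx hlen
  rw [List.getElem_eraseIdx_of_lt hlen hab] at h2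
  rw [List.getD_eq_getElem _ _ (hab.trans hb), List.getD_eq_getElem _ _ hb, ← h1, ← h2]
  ring

/-- the number of pairs -/
noncomputable def K (N : ℕ) : ℂ := ∑ b ∈ range N, (b : ℂ)

theorem K_ne {N : ℕ} (h : 2 ≤ N) : K N ≠ 0 := by
  unfold K
  rw [← Nat.cast_sum, Nat.cast_ne_zero]
  have h1 : 1 ≤ ∑ b ∈ range N, b :=
    Finset.single_le_sum (f := fun b => b) (fun _ _ => Nat.zero_le _)
      (Finset.mem_range.2 (by omega : 1 < N))
  omega

theorem diff_nil (hf : IsCochain n f) (Y : List ℂ) : diff queerOne f [] Y =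
    -(K Y.length * Y.prod * f [1] (List.replicate (Y.length - 2) 1)) := by
  rw [diff_eq hf]
  congr 1
  unfold K
  rw [Finset.sum_mul, Finset.sum_mul]
  refine Finset.sum_congr rfl fun b hb => ?_
  rw [Finset.mem_range] at hb
  have h1 : ∀ a ∈ range b, f [Y.getD a 0 * Y.getD b 0] ((Y.eraseIdx b).eraseIdx a) =
      Y.prod * f [1] (List.replicate (Y.length - 2) 1) := by
    intro a ha
    rw [Finset.mem_range] at ha
    rw [eval_one hf, prod_pair ha hb]
    have h2 : a < (Y.eraseIdx b).length := by
      rw [List.length_eraseIdx_of_lt hb]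
      omega
    rw [List.length_eraseIdx_of_lt h2, List.length_eraseIdx_of_lt hb, Nat.sub_sub]
  rw [Finset.sum_congr rfl h1, Finset.sum_const, Finset.card_range, nsmul_eq_mul, mul_assoc]

/-- relative to `0` -/
theorem relative_iff : IsRelative queerOne ⊥ n f ↔ IsCochain n f := by
  refine ⟨fun h => h.cochain, fun h => ⟨h, ?_, ?_⟩⟩
  · intro u hu X Y
    rw [(Submodule.mem_bot ℂ).1 hu]
    exact even_zero h Y List.mem_cons_self
  · intro u _ X Y
    have h1 : (∑ k ∈ range X.length, f (X.set k (queerOne.b00 u (X.getD k 0))) Y) = 0 := by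
      refine Finset.sum_eq_zero fun k hk => even_zero h Y ?_
      exact List.mem_set (Finset.mem_range.1 hk) _
    have h2 : (∑ k ∈ range Y.length, f X (Y.set k (queerOne.b01 u (Y.getD k 0)))) = 0 := by
      refine Finset.sum_eq_zero fun k hk => odd_zero h X ?_
      exact List.mem_set (Finset.mem_range.1 hk) _
    rw [h1, h2, add_zero]

/-- the cochain `ξ ^ j` -/
noncomputable def pw (j : ℕ) : Fun ℂ ℂ := fun X Y => if X = [] ∧ Y.length = j then Y.prod else 0

theorem pw_cochain (j : ℕ) : IsCochain j (pw j) where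
  degree := by
    intro X Y h
    unfold pw
    rw [if_neg]
    rintro ⟨rfl, h2⟩
    exact h (by simpa using h2)
  even_linear := by
    intro X X' Y a b c
    unfold pw
    rw [if_neg (by simp), if_neg (by simp), if_neg (by simp)]
    ring
  odd_linear := by
    intro X Y Y' a b c
    unfold pw
    simp only [List.length_append, List.length_cons, List.prod_append, List.prod_cons]
    split_ifs
    · rw [smul_eq_mul]
      ring
    · ring
  alternating := by
    intro X X' X'' Y a
    unfold pw
    rw [if_neg (by simp)]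
  symmetric := by
    intro X Y Y' h
    unfold pw
    rw [h.length_eq, h.prod_eq]

/-- the cochain `κ ζ ξ ^ m` -/
noncomputable def gg (κ : ℂ) (m : ℕ) : Fun ℂ ℂ := fun X Y =>
  if X.length = 1 ∧ Y.length = m then κ * X.prod * Y.prod else 0

theorem gg_cochain (κ : ℂ) (m : ℕ) : IsCochain (m + 1) (gg κ m) where
  degree := by
    intro X Y h
    unfold gg
    rw [if_neg]
    rintro ⟨h1, h2⟩
    exact h (by omega)
  even_linear := by
    intro X X' Y a b c
    unfold gg
    simp only [List.length_append, List.length_cons, List.prod_append, List.prod_cons]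
    split_ifs
    · rw [smul_eq_mul]
      ring
    · ring
  odd_linear := by
    intro X Y Y' a b c
    unfold gg
    simp only [List.length_append, List.length_cons, List.prod_append, List.prod_cons]
    split_ifs
    · rw [smul_eq_mul]
      ring
    · ring
  alternating := by
    intro X X' X'' Y a
    unfold gg
    rw [if_neg]
    rintro ⟨h1, -⟩
    simp only [List.length_append, List.length_cons] at h1
    omega
  symmetric := by
    intro X Y Y' h
    unfold gg
    rw [h.length_eq, h.prod_eq]

theorem diff_gg (κ : ℂ) (m : ℕ) : diff queerOne (gg κ m) = (-(K (m + 2) * κ)) • pw (m + 2) := by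
  funext X Y
  rw [Pi.smul_apply, Pi.smul_apply, smul_eq_mul]
  rcases X with _ | ⟨x, X⟩
  · rw [diff_nil (gg_cochain κ m)]
    unfold gg pw
    simp only [List.length_singleton, true_and, List.length_replicate, List.prod_singleton,
      List.prod_replicate, one_pow, mul_one]
    by_cases h : Y.length = m + 2
    · rw [if_pos h, if_pos (by omega), h]
      ring
    · rw [if_neg h]
      by_cases h2 : Y.length - 2 = m
      · have h3 : Y.length < 2 := by omega
        have h4 : K Y.length = 0 := by
          unfold K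
          interval_cases hY : Y.length <;> simp
        rw [h4]
        ring
      · rw [if_neg h2]
        ring
  · rw [diff_cons (gg_cochain κ m)]
    unfold pw
    rw [if_neg (by simp), mul_zero]

/-- cocycles are multiples of `ξ ^ n` -/
theorem cocycle_eq (h : IsCocycle queerOne ⊥ n f) :
    f = (f [] (List.replicate n 1)) • pw n := by
  obtain ⟨h1, h2⟩ := h
  have hf := h1.cochain
  have key : n ≠ 0 → f [1] (List.replicate (n - 1) 1) = 0 := by
    intro hn
    have h3 := congrFun (congrFun h2 []) (List.replicate (n + 1) (1 : ℂ))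
    rw [diff_nil hf] at h3
    simp only [List.length_replicate, List.prod_replicate, one_pow, mul_one, Pi.zero_apply,
      neg_eq_zero, mul_eq_zero] at h3
    rcases h3 with h3 | h3
    · exact absurd h3 (K_ne (by omega))
    · have e : n + 1 - 2 = n - 1 := by omega
      rwa [e] at h3
  funext X Y
  rw [Pi.smul_apply, Pi.smul_apply, smul_eq_mul]
  unfold pw
  rcases X with _ | ⟨x, _ | ⟨x', X⟩⟩
  · by_cases hY : Y.length = n
    · rw [if_pos ⟨rfl, hY⟩, eval_nil hf, hY, mul_comm]
    · rw [if_neg (fun hh => hY hh.2), mul_zero]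
      exact hf.degree _ _ (by simpa using hY)
  · rw [if_neg (by simp), mul_zero]
    by_cases hY : 1 + Y.length = n
    · rw [eval_one hf]
      have e : Y.length = n - 1 := by omega
      rw [e, key (by omega), mul_zero]
    · exact hf.degree _ _ (by simpa using hY)
  · rw [if_neg (by simp), mul_zero]
    exact eval_two hf _ _ _ _

theorem cob_eval (hn : n < 2) (h : IsCoboundary queerOne ⊥ n f) :
    f [] (List.replicate n 1) = 0 := by
  rcases h with rfl | ⟨m, g, hm, hg, rfl⟩
  · rfl
  · rw [diff_nil hg.cochain]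
    have e : K (List.replicate n (1 : ℂ)).length = 0 := by
      rw [List.length_replicate]
      unfold K
      interval_cases n <;> simp
    rw [e]
    ring

theorem pw_cocycle (j : ℕ) : IsCocycle queerOne ⊥ j (pw j) := by
  refine ⟨relative_iff.2 (pw_cochain j), ?_⟩
  funext X Y
  rcases X with _ | ⟨x, X⟩
  · rw [diff_nil (pw_cochain j)]
    unfold pw
    rw [if_neg (by simp)]
    simp
  · rw [diff_cons (pw_cochain j)]
    rfl

theorem pw_eval (j : ℕ) : pw j [] (List.replicate j 1) = 1 := by
  unfold pw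
  rw [if_pos ⟨rfl, by simp⟩]
  simp

/-- the unit cochain is a unit for the cup product -/
theorem sum_splits {V : Type} (G : ℂ → List V → List V → ℂ)
    (hG : ∀ s x A B, G s (x :: A) B = 0) : ∀ X : List V,
    ((splits X).map fun p => G p.1 p.2.1 p.2.2).sum = G 1 [] X := by
  intro X
  induction X generalizing G with
  | nil => simp [splits]
  | cons x X ih =>
    rw [splits, List.map_append, List.sum_append, List.map_map, List.map_map]
    have h1 : (List.map ((fun p : ℂ × List V × List V => G p.1 p.2.1 p.2.2) ∘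
        fun p => (p.1, x :: p.2.1, p.2.2)) (splits X)).sum = 0 := by
      apply List.sum_eq_zero
      intro z hz
      obtain ⟨p, -, rfl⟩ := List.mem_map.1 hz
      exact hG _ _ _ _
    rw [h1, zero_add]
    have h2 := ih (fun s A B => G ((-1) ^ A.length * s) A (x :: B)) fun s y A B => hG _ _ _ _
    simp only [List.length_nil, pow_zero, mul_one] at h2
    exact h2

theorem cup_one (h : Fun ℂ ℂ) : cup one h = h := by
  funext X Y
  unfold cup
  have h1 := sum_splits (V := ℂ) (fun s A B => ((splits Y).map fun q =>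
    s * (-1) ^ (B.length * q.2.1.length) * (one A q.2.1 * h B q.2.2)).sum) (by
      intro s x A B
      apply List.sum_eq_zero
      intro z hz
      obtain ⟨q, -, rfl⟩ := List.mem_map.1 hz
      unfold one
      rw [if_neg (by simp)]
      ring) X
  refine h1.trans ?_
  have h2 := sum_splits (V := ℂ) (fun _ A B =>
    (1 : ℂ) * (-1) ^ (X.length * A.length) * (one ([] : List ℂ) A * h X B)) (by
      intro s x A B
      unfold one
      rw [if_neg (by simp)]
      ring) Y
  refine h2.trans ?_
  unfold one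
  simp

theorem cm : CohenMacaulay queerOne ⊥ := by
  refine ⟨0, 2, fun i => i.elim0, fun i => i.elim0, fun j => pw j, fun j => j,
    fun i => i.elim0, fun i => i.elim0, fun j => pw_cocycle j, fun n f hf => ?_⟩
  have hsum : ∀ c : ((Fin 0 → ℕ) × Fin 2) →₀ ℂ,
      (c.sum fun p z => z • cup (mono (fun i : Fin 0 => (i.elim0 : Fun ℂ ℂ)) p.1) (pw p.2)) =
        c.sum fun p z => z • pw (p.2 : ℕ) := by
    intro c
    refine Finsupp.sum_congr fun p _ => ?_
    congr 1
    exact cup_one _
  have hdeg : ∀ c : ((Fin 0 → ℕ) × Fin 2) →₀ ℂ,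
      (∀ p, c p ≠ 0 → ∑ i : Fin 0, p.1 i * (i.elim0 : ℕ) + (p.2 : ℕ) = n) →
      ∀ p, c p ≠ 0 → (p.2 : ℕ) = n := by
    intro c h p hp
    simpa using h p hp
  have hf' := cocycle_eq hf
  by_cases hn : n < 2
  · set p0 : (Fin 0 → ℕ) × Fin 2 := (default, ⟨n, hn⟩) with hp0
    have hsingle : ∀ c : ((Fin 0 → ℕ) × Fin 2) →₀ ℂ, (∀ p, c p ≠ 0 → (p.2 : ℕ) = n) →
        c = Finsupp.single p0 (c p0) := by
      intro c hc
      ext p
      by_cases h : p = p0
      · rw [h, Finsupp.single_eq_same]
      · rw [Finsupp.single_eq_of_ne h]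
        by_contra h0
        apply h
        refine Prod.ext (Subsingleton.elim _ _) (Fin.ext (hc p h0))
    have hss : ∀ z : ℂ, ((Finsupp.single p0 z).sum fun (p : ((Fin 0 → ℕ) × Fin 2)) (z : ℂ) =>
        z • pw (p.2 : ℕ)) = z • pw n := fun z =>
      Finsupp.sum_single_index (h := fun (p : ((Fin 0 → ℕ) × Fin 2)) (z : ℂ) =>
        z • pw (p.2 : ℕ)) (zero_smul ℂ _)
    refine ⟨Finsupp.single p0 (f [] (List.replicate n 1)), ⟨?_, ?_⟩, ?_⟩
    · intro p hp
      have h : p = p0 := by
        by_contra h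
        exact hp (Finsupp.single_eq_of_ne h)
      rw [h]
      simp [hp0]
    · rw [hsum, hss]
      left
      rw [sub_eq_zero]
      exact hf'
    · rintro c ⟨h1, h2⟩
      have h3 := hsingle c (hdeg c h1)
      rw [hsum] at h2
      rw [h3, hss] at h2
      have h4 := cob_eval hn h2
      rw [Pi.sub_apply, Pi.sub_apply, Pi.smul_apply, Pi.smul_apply, smul_eq_mul] at h4
      rw [pw_eval n, mul_one, sub_eq_zero] at h4
      rw [h3, ← h4]
  · obtain ⟨m, rfl⟩ : ∃ m, n = m + 2 := ⟨n - 2, by omega⟩
    refine ⟨0, ⟨fun p hp => absurd rfl hp, ?_⟩, ?_⟩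
    · rw [Finsupp.sum_zero_index, sub_zero]
      right
      refine ⟨m + 1, gg (-(f [] (List.replicate (m + 2) 1)) / K (m + 2)) m, rfl,
        relative_iff.2 (gg_cochain _ m), ?_⟩
      rw [diff_gg]
      conv_rhs => rw [hf']
      congr 1
      have := K_ne (N := m + 2) (by omega)
      field_simp
    · rintro c ⟨h1, -⟩
      ext p
      by_contra h0
      have h2 := hdeg c h1 p h0
      have h3 := p.2.2
      omega

theorem not_collapses : ¬ Collapses queerOne ⊥ := by
  intro h
  have hd := diff_gg 1 0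
  obtain ⟨g, hg, hg1, -, hg3⟩ := h 2 le_rfl 0 1 (gg 1 0) (relative_iff.2 (gg_cochain 1 0))
    (fun X Y hY => absurd hY (Nat.not_lt_zero _)) (by
      intro X Y hY
      rw [hd]
      show _ * pw 2 X Y = 0
      unfold pw
      rw [if_neg (by omega), mul_zero])
  have h1 := hg3 [] [1, 1] (by simp)
  rw [Pi.sub_apply, Pi.sub_apply, sub_eq_zero, hd, diff_nil hg.cochain] at h1
  have h2 : g [1] [] = 0 := hg1 [1] [] (by simp)
  have h3 : pw (0 + 2) [] [1, 1] = 1 := pw_eval 2
  rw [Pi.smul_apply, Pi.smul_apply, h3] at h1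
  simp only [List.length_cons, List.length_nil, zero_add, Nat.reduceAdd, Nat.sub_self,
    List.replicate_zero, h2, mul_zero, neg_zero, smul_eq_mul, mul_one, neg_eq_zero] at h1
  exact K_ne le_rfl h1

theorem toral : ToralClassical queerOne := by
  refine ⟨fun _ _ => rfl, 1, 1, Module.Basis.singleton (Fin 1) ℂ,
    Module.Basis.singleton (Fin 1) ℂ, fun _ _ => 0, fun i j => ?_⟩
  rw [Int.cast_zero, zero_smul]
  rfl

/-- The theorem. -/
theorem result : ToralClassical queerOne ∧ CohenMacaulay queerOne ⊥ ∧ ¬ Collapses queerOne ⊥ :=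
  ⟨toral, cm, not_collapses⟩

end Pool.Agent.Results.MP_41152b_al.QueerOne
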